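import Pool.Agent.Helper31.Res.Pair
import Pool.Agent.Helper54.Res.UKill
import Pool.Agent.Helper65.Res.A2

/-!
# Route A: the pair leaf

The sum over the six perfect matchings of the cells of two blocks, in the form wanted by
`RouteA.SetUp.card_le_list`.
-/

namespace Helper31.Res

open Finset Res12 Helper9.Res
open RouteA hiding T3

set_option linter.unusedSectionVars false

variable {V : Type} [Fintype V] [DecidableEq V]
variable {F P : Finset (Finset V)} {s j : ℕ} {x y : V} {e f : Finset V}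

theorem bet_cAB (h : SetUp F s j P x y) {u v t a b c : V} (p : Pm P e f u v t a b c)
    (g : Bet F P x y s e f u v t a b c) : Helper9.Res.T3 F P e f u v t a b c ≤ cAB s j := by
  obtain ⟨g1, g2, g3, g4⟩ := g
  have h1 := tau_le h p.he p.hf p.hef p.hu p.ha
  have h2 := tau_le h p.he p.hf p.hef p.hv p.hb
  have h3 := tau_le h p.he p.hf p.hef p.ht p.hc
  have h4 := Helper54.Res.pair_mm h p g1
  have h5 := Helper9.Res.lam_le h u a
  unfold Helper54.Res.mm at h4
  have e2 : tau F P e f v b = 3 * lam F P v b - ((m3 F P e f v b).card : ℤ) -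
    ((m2 F e f v b).card : ℤ) := rfl
  have e3 : tau F P e f t c = 3 * lam F P t c - ((m3 F P e f t c).card : ℤ) -
    ((m2 F e f t c).card : ℤ) := rfl
  unfold Helper9.Res.T3 cAB
  rw [le_max_iff, le_min_iff]
  right
  constructor <;> omega

theorem gam_cC (h : SetUp F s j P x y) {u v t a b c : V} (p : Pm P e f u v t a b c)
    (g : Gam F P x y s j e f u v t a b c) : Helper9.Res.T3 F P e f u v t a b c ≤ cC s j := by
  obtain ⟨g1, g2, ⟨w, hw, w', hw', hww⟩, g4, g5, g6⟩ := g
  have h1 := tau_le h p.he p.hf p.hef p.hu p.ha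
  have h2 := tau_le h p.he p.hf p.hef p.hv p.hb
  have h3 := tau_le h p.he p.hf p.hef p.ht p.hc
  have h4 := Helper54.Res.zero_mm h p hw hw' hww
  have h5 := Helper9.Res.lam_le h u a
  have h6 := Helper9.Res.lam_le h v b
  have h7 : lam F P t c = -2 := by
    unfold lam
    omega
  unfold Helper54.Res.mm at h4
  have e3 : tau F P e f t c = 3 * lam F P t c - ((m3 F P e f t c).card : ℤ) -
    ((m2 F e f t c).card : ℤ) := rfl
  unfold Helper9.Res.T3 cC
  rw [le_min_iff]
  constructor <;> omega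

/-- every perfect matching -/
theorem trich (h : SetUp F s j P x y) {u v t a b c : V} (p : Pm P e f u v t a b c) :
    Helper9.Res.T3 F P e f u v t a b c ≤ cAB s j ∨
    (Helper9.Res.T3 F P e f u v t a b c ≤ cC s j ∧
      (Gam F P x y s j e f u v t a b c ∨ Gam F P x y s j e f v t u b c a ∨
        Gam F P x y s j e f t u v c a b)) := by
  have hsw : Helper9.Res.T3 F P e f t v u c b a = Helper9.Res.T3 F P e f u v t a b c := by
    unfold Helper9.Res.T3; ring
  have hsw2 : Helper9.Res.T3 F P e f u t v a c b = Helper9.Res.T3 F P e f u v t a b c := by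
    unfold Helper9.Res.T3; ring
  have hsw3 : Helper9.Res.T3 F P e f t u v c a b = Helper9.Res.T3 F P e f u v t a b c := by
    unfold Helper9.Res.T3; ring
  rcases cls h p with ⟨h1, h2⟩ | (k | k | k | k | k | k) | (k | k | k)
  · left
    have : -3 * (j : ℤ) ≤ cAB s j := le_max_left _ _
    omega
  · exact Or.inl (bet_cAB h p k)
  · have := bet_cAB h p.rot k
    rw [T3_rot] at this
    exact Or.inl this
  · have := bet_cAB h p.rot.rot k
    rw [hsw3] at this
    exact Or.inl this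
  · have := bet_cAB h p.swap k
    rw [T3_swap] at this
    exact Or.inl this
  · have := bet_cAB h p.rot.swap k
    rw [hsw] at this
    exact Or.inl this
  · have := bet_cAB h p.swap23 k
    rw [hsw2] at this
    exact Or.inl this
  · exact Or.inr ⟨gam_cC h p k, Or.inl k⟩
  · have := gam_cC h p.rot k
    rw [T3_rot] at this
    exact Or.inr ⟨this, Or.inr (Or.inl k)⟩
  · have := gam_cC h p.rot.rot k
    rw [hsw3] at this
    exact Or.inr ⟨this, Or.inr (Or.inr k)⟩

theorem cAB_le_cC (hs : 3 ≤ s) (hj : 2 ≤ j) : cAB s j ≤ cC s j := by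
  unfold cAB cC
  rw [max_le_iff, le_min_iff, le_min_iff]
  refine ⟨⟨by omega, by omega⟩, ?_, ?_⟩
  · rcases le_or_gt j (2 * s - 2) with h1 | h1
    · exact (min_le_left _ _).trans (by omega)
    · exact (min_le_right _ _).trans (by omega)
  · exact (min_le_right _ _).trans (by omega)

theorem lb_pos (h : SetUp F s j P x y) {a b w : V} (hw : w ∈ lb F P x y a b) :
    0 < dW F P a b := by
  have h1 := lb_card_le h a b
  have h2 : 0 < (lb F P x y a b).card := card_pos.2 ⟨w, hw⟩
  omega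

/-- a matching of type `Gam` with its `E`-points in two different cells -/
theorem gam_two {u v t a b c : V}
    (hu : u ∈ N F x y) (hb : b ∈ N F x y)
    (g : Gam F P x y s j e f u v t a b c ∨ Gam F P x y s j e f v t u b c a ∨
        Gam F P x y s j e f t u v c a b) : dW F P t c = 0 := by
  rcases g with g | g | g
  · exact g.2.2.2.1
  · exact absurd hu g.1
  · exact absurd hb g.2.1

/-- a matching of type `Gam` with its `E`-points in one cell -/
theorem gam_one (h : SetUp F s j P x y) {u v t a b c : V} (hu : u ∈ N F x y)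
    (g : Gam F P x y s j e f u v t a b c ∨ Gam F P x y s j e f v t u b c a ∨
        Gam F P x y s j e f t u v c a b) :
    (dW F P t c = 0 ∧ 0 < dW F P v b) ∨ (dW F P v b = 0 ∧ 0 < dW F P t c) := by
  rcases g with g | g | g
  · obtain ⟨g1, g2, ⟨w, hw, w', hw', hww⟩, g4, g5, g6⟩ := g
    exact Or.inl ⟨g4, lb_pos h hw'⟩
  · exact absurd hu g.1
  · obtain ⟨g1, g2, ⟨w, hw, w', hw', hww⟩, g4, g5, g6⟩ := g
    exact Or.inr ⟨g4, lb_pos h hw⟩

/-- a block of type two -/
theorem name_two (h : SetUp F s j P x y) (he : e ∈ P) (ht : ty F x y e = 2) :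
    ∃ p q r : V, p ∈ e ∧ q ∈ e ∧ r ∈ e ∧ p ≠ q ∧ p ≠ r ∧ q ≠ r ∧ p ∈ N F x y := by
  have h3 := h.threeP e he
  unfold ty at ht
  have h1 : (e ∩ N F x y).card = 1 := by
    have := card_sdiff_add_card_inter e (N F x y)
    omega
  obtain ⟨q, r, hqr, hS⟩ := card_eq_two.1 ht
  obtain ⟨p, hp⟩ := card_eq_one.1 h1
  have hp' : p ∈ e ∩ N F x y := by rw [hp]; exact mem_singleton_self p
  have hq' : q ∈ e \ N F x y := by rw [hS]; simp
  have hr' : r ∈ e \ N F x y := by rw [hS]; simp
  rw [mem_inter] at hp'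
  rw [mem_sdiff] at hq' hr'
  refine ⟨p, q, r, hp'.1, hq'.1, hr'.1, ?_, ?_, hqr, hp'.2⟩
  · rintro rfl
    exact hq'.2 hp'.2
  · rintro rfl
    exact hr'.2 hp'.2

/-- two blocks of type two -/
theorem pair_two (h : SetUp F s j P x y) (hs : 3 ≤ s) (hj : 2 ≤ j) (he : e ∈ P) (hf : f ∈ P)
    (hef : e ≠ f) (h1 : ty F x y e = 2) (h2 : ty F x y f = 2) :
    2 * ∑ q ∈ e, ∑ r ∈ f, tau F P e f q r ≤ 2 * cAB s j + 4 * cC s j := by
  obtain ⟨p, q, r, hp, hq, hr, hpq, hpr, hqr, hpE⟩ := name_two h he h1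
  obtain ⟨a, b, c, ha, hb, hc, hab, hac, hbc, haE⟩ := name_two h hf h2
  have hle := cAB_le_cC (s := s) (j := j) hs hj
  have pm : Pm P e f p q r a b c :=
    ⟨he, hf, hef, hp, hq, hr, ha, hb, hc, hpq, hpr, hqr, hab, hac, hbc⟩
  have pm2 : Pm P e f p q r a c b := pm.cols
  have pm3 : Pm P e f p q r b a c :=
    ⟨he, hf, hef, hp, hq, hr, hb, ha, hc, hpq, hpr, hqr, hab.symm, hbc, hac⟩
  have pm4 : Pm P e f p q r b c a := pm3.cols
  have pm5 : Pm P e f p q r c a b :=
    ⟨he, hf, hef, hp, hq, hr, hc, ha, hb, hpq, hpr, hqr, hac.symm, hbc.symm, hab⟩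
  have pm6 : Pm P e f p q r c b a := pm5.cols
  have e4 : Helper9.Res.T3 F P e f p r q b a c = Helper9.Res.T3 F P e f p q r b c a := by
    unfold Helper9.Res.T3; ring
  have e6 : Helper9.Res.T3 F P e f p r q c a b = Helper9.Res.T3 F P e f p q r c b a := by
    unfold Helper9.Res.T3; ring
  have t1 := trich h pm
  have t2 := trich h pm2
  have t3 := trich h pm3
  have t4 := trich h pm4.swap23
  have t5 := trich h pm5
  have t6 := trich h pm6.swap23
  rw [e4] at t4
  rw [e6] at t6
  have s3 : Helper9.Res.T3 F P e f p q r b a c ≤ cAB s j ∨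
      (Helper9.Res.T3 F P e f p q r b a c ≤ cC s j ∧ dW F P r c = 0) := by
    rcases t3 with k | ⟨k, k'⟩
    · exact Or.inl k
    · exact Or.inr ⟨k, gam_two hpE haE k'⟩
  have s4 : Helper9.Res.T3 F P e f p q r b c a ≤ cAB s j ∨
      (Helper9.Res.T3 F P e f p q r b c a ≤ cC s j ∧ dW F P q c = 0) := by
    rcases t4 with k | ⟨k, k'⟩
    · exact Or.inl k
    · exact Or.inr ⟨k, gam_two hpE haE k'⟩
  have s5 : Helper9.Res.T3 F P e f p q r c a b ≤ cAB s j ∨
      (Helper9.Res.T3 F P e f p q r c a b ≤ cC s j ∧ dW F P r b = 0) := by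
    rcases t5 with k | ⟨k, k'⟩
    · exact Or.inl k
    · exact Or.inr ⟨k, gam_two hpE haE k'⟩
  have s6 : Helper9.Res.T3 F P e f p q r c b a ≤ cAB s j ∨
      (Helper9.Res.T3 F P e f p q r c b a ≤ cC s j ∧ dW F P q b = 0) := by
    rcases t6 with k | ⟨k, k'⟩
    · exact Or.inl k
    · exact Or.inr ⟨k, gam_two hpE haE k'⟩
  have s1 : Helper9.Res.T3 F P e f p q r a b c ≤ cAB s j ∨
      (Helper9.Res.T3 F P e f p q r a b c ≤ cC s j ∧ ((dW F P r c = 0 ∧ 0 < dW F P q b) ∨
        (dW F P q b = 0 ∧ 0 < dW F P r c))) := by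
    rcases t1 with k | ⟨k, k'⟩
    · exact Or.inl k
    · exact Or.inr ⟨k, gam_one h hpE k'⟩
  have s2 : Helper9.Res.T3 F P e f p q r a c b ≤ cAB s j ∨
      (Helper9.Res.T3 F P e f p q r a c b ≤ cC s j ∧ ((dW F P r b = 0 ∧ 0 < dW F P q c) ∨
        (dW F P q c = 0 ∧ 0 < dW F P r b))) := by
    rcases t2 with k | ⟨k, k'⟩
    · exact Or.inl k
    · exact Or.inr ⟨k, gam_one h hpE k'⟩
  have hsum := h.two_sum_T3 pm
  rw [hsum]
  -- the matchings 1, 3, 6 and 2, 4, 5
  have A : Helper9.Res.T3 F P e f p q r a b c + Helper9.Res.T3 F P e f p q r b a c +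
      Helper9.Res.T3 F P e f p q r c b a ≤ cAB s j + 2 * cC s j := by
    rcases s1 with k1 | ⟨k1, k1' | k1'⟩ <;> rcases s3 with k3 | ⟨k3, k3'⟩ <;>
      rcases s6 with k6 | ⟨k6, k6'⟩ <;> omega
  have B : Helper9.Res.T3 F P e f p q r a c b + Helper9.Res.T3 F P e f p q r b c a +
      Helper9.Res.T3 F P e f p q r c a b ≤ cAB s j + 2 * cC s j := by
    rcases s2 with k1 | ⟨k1, k1' | k1'⟩ <;> rcases s4 with k3 | ⟨k3, k3'⟩ <;>
      rcases s5 with k6 | ⟨k6, k6'⟩ <;> omega
  linarith

/-- **the pair leaf** -/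
theorem six_le (h : SetUp F s j P x y) (hs : 3 ≤ s) (hj : 2 ≤ j) {u v t a b c : V}
    (p : Pm P e f u v t a b c) :
    six F P e f u v t a b c ≤ (6 - n2 (ty F x y e) (ty F x y f)) * cAB s j +
      n2 (ty F x y e) (ty F x y f) * cC s j := by
  rw [h.six_eq p]
  have hle := cAB_le_cC (s := s) (j := j) hs hj
  have h1 := pair_abs h p.he p.hf p.hef (B0 := cAB s j) (D := cC s j - cAB s j) (by omega) (by
    intro u v t a b c p
    rcases trich h p with k | ⟨k, k'⟩
    · exact Or.inl k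
    · exact Or.inr ⟨by omega, k'⟩)
  have h2 : ∑ a ∈ e, ∑ b ∈ f, tau F P e f a b ≤ 3 * cC s j := by
    refine sum_cells_le (P := P) (fun a b => tau F P e f a b) (cC s j) h.threeP p.he p.hf p.hef ?_
    intro u v t a b c p
    have h3 : Helper9.Res.T3 F P e f u v t a b c ≤ cC s j := by
      rcases trich h p with k | ⟨k, -⟩ <;> omega
    exact h3
  have te : ty F x y e ≤ 3 := by
    have := h.threeP e p.he
    unfold ty
    exact this ▸ card_le_card sdiff_subset
  have tf : ty F x y f ≤ 3 := by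
    have := h.threeP f p.hf
    unfold ty
    exact this ▸ card_le_card sdiff_subset
  by_cases h22 : ty F x y e = 2 ∧ ty F x y f = 2
  · have := pair_two h hs hj p.he p.hf p.hef h22.1 h22.2
    rw [h22.1, h22.2]
    have e1 : n2 2 2 = 4 := rfl
    rw [e1]
    linarith
  · generalize ty F x y e = i at *
    generalize ty F x y f = k at *
    have hi : i = 0 ∨ i = 1 ∨ i = 2 ∨ i = 3 := by omega
    have hk : k = 0 ∨ k = 1 ∨ k = 2 ∨ k = 3 := by omega
    rcases hi with rfl | rfl | rfl | rfl <;> rcases hk with rfl | rfl | rfl | rfl <;>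
      first
        | (exact absurd ⟨rfl, rfl⟩ h22)
        | (simp only [n2]; norm_num at h1 ⊢; linarith)
        | (simp only [n2]; norm_num at h1 ⊢; nlinarith)

end Helper31.Res
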