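import Pool.Agent.Helper65.Res.Frame
import Pool.Agent.Helper9.Res.Cls

/-!
# Route A: bounds for the sum of `tau` over the nine cells of two blocks

Every perfect matching of the cells has `T3 ≤ B0` or is of type `Gam` (and then `T3 ≤ B2`); a
matching of type `Gam` contains a cell of `J × J`, and a cell lies in two of the six matchings.
-/

namespace Helper31.Res

open Finset Res12 Helper9.Res
open RouteA hiding T3

set_option linter.unusedSectionVars false

variable {V : Type} [Fintype V] [DecidableEq V]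
variable {F P : Finset (Finset V)} {s j : ℕ} {x y : V} {e f : Finset V}

/-- the indicator of the cells of `J × J` -/
def JJ (F : Finset (Finset V)) (x y : V) (a b : V) : ℤ :=
  if a ∉ N F x y ∧ b ∉ N F x y then 1 else 0

theorem JJ_nonneg (a b : V) : 0 ≤ JJ F x y a b := by
  unfold JJ
  split_ifs <;> norm_num

theorem sum_JJ (e f : Finset V) :
    ∑ a ∈ e, ∑ b ∈ f, JJ F x y a b = (ty F x y e : ℤ) * ty F x y f := by
  have h1 : ∀ g : Finset V, (ty F x y g : ℤ) = ∑ a ∈ g, if a ∉ N F x y then 1 else 0 := by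
    intro g
    unfold ty
    rw [sdiff_eq_filter, card_filter]
    push_cast
    rfl
  rw [h1 e, h1 f, Finset.sum_mul_sum]
  refine sum_congr rfl (fun a _ => sum_congr rfl (fun b _ => ?_))
  unfold JJ
  by_cases ha : a ∉ N F x y <;> by_cases hb : b ∉ N F x y <;> simp [ha, hb]

/-- a matching of type `Gam` contains a cell of `J × J` -/
theorem one_le_JJ {u v t a b c : V}
    (g : Gam F P x y s j e f u v t a b c ∨ Gam F P x y s j e f v t u b c a ∨
      Gam F P x y s j e f t u v c a b) :
    1 ≤ JJ F x y u a + JJ F x y v b + JJ F x y t c := by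
  have h1 := JJ_nonneg (F := F) (x := x) (y := y) u a
  have h2 := JJ_nonneg (F := F) (x := x) (y := y) v b
  have h3 := JJ_nonneg (F := F) (x := x) (y := y) t c
  rcases g with g | g | g
  · have : JJ F x y t c = 1 := by
      unfold JJ
      rw [if_pos ⟨g.1, g.2.1⟩]
    omega
  · have : JJ F x y u a = 1 := by
      unfold JJ
      rw [if_pos ⟨g.1, g.2.1⟩]
    omega
  · have : JJ F x y v b = 1 := by
      unfold JJ
      rw [if_pos ⟨g.1, g.2.1⟩]
    omega

/-- **the pair bound, abstract form**: `B0` bounds the matchings which are not of type `Gam`,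
`B0 + D` bounds those of type `Gam` -/
theorem pair_abs (h : SetUp F s j P x y) (he : e ∈ P) (hf : f ∈ P) (hef : e ≠ f) {B0 D : ℤ}
    (hD : 0 ≤ D)
    (hT : ∀ u v t a b c, Pm P e f u v t a b c → T3 F P e f u v t a b c ≤ B0 ∨
      (T3 F P e f u v t a b c ≤ B0 + D ∧
        (Gam F P x y s j e f u v t a b c ∨ Gam F P x y s j e f v t u b c a ∨
          Gam F P x y s j e f t u v c a b))) :
    ∑ a ∈ e, ∑ b ∈ f, tau F P e f a b ≤ 3 * B0 + D * ((ty F x y e : ℤ) * ty F x y f) := by
  have key := sum_cells_le (P := P) (fun a b => tau F P e f a b - D * JJ F x y a b) B0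
    h.threeP he hf hef (by
      intro u v t a b c p
      have h1 := JJ_nonneg (F := F) (x := x) (y := y) u a
      have h2 := JJ_nonneg (F := F) (x := x) (y := y) v b
      have h3 := JJ_nonneg (F := F) (x := x) (y := y) t c
      show tau F P e f u a - D * JJ F x y u a + (tau F P e f v b - D * JJ F x y v b) +
        (tau F P e f t c - D * JJ F x y t c) ≤ B0
      rcases hT u v t a b c p with h4 | ⟨h4, h5⟩
      · unfold T3 at h4
        nlinarith [mul_nonneg hD h1, mul_nonneg hD h2, mul_nonneg hD h3]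
      · have h6 := one_le_JJ h5
        unfold T3 at h4
        nlinarith [mul_le_mul_of_nonneg_left h6 hD])
  have e1 : ∑ q ∈ e, ∑ r ∈ f, (tau F P e f q r - D * JJ F x y q r) =
      ∑ a ∈ e, ∑ b ∈ f, tau F P e f a b - D * ((ty F x y e : ℤ) * ty F x y f) := by
    rw [← sum_JJ e f]
    simp only [Finset.sum_sub_distrib, ← Finset.mul_sum]
  rw [e1] at key
  linarith

/-- **the pair bound** from `cls_num` -/
theorem pair_num (h : SetUp F s j P x y) (he : e ∈ P) (hf : f ∈ P) (hef : e ≠ f) {m : ℤ}
    (hm : m ≤ 3 * j) (hm' : m ≤ s + (ty F x y e + ty F x y f)) {D : ℤ} (hD : 0 ≤ D)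
    (hD' : (s : ℤ) - j - (ty F x y e + ty F x y f) + m ≤ D) :
    ∑ a ∈ e, ∑ b ∈ f, tau F P e f a b ≤ -3 * m + D * ((ty F x y e : ℤ) * ty F x y f) := by
  have := pair_abs h he hf hef (B0 := -m) hD (by
    intro u v t a b c p
    rcases cls_num h p with k | k | ⟨k, k'⟩
    · left
      omega
    · left
      omega
    · right
      exact ⟨by omega, k'⟩)
  linarith

/-- **every pair**, crude form -/
theorem pair_max (h : SetUp F s j P x y) (he : e ∈ P) (hf : f ∈ P) (hef : e ≠ f) {B : ℤ}
    (hB : -3 * (j : ℤ) ≤ B) (hB' : -(s : ℤ) - (ty F x y e + ty F x y f) ≤ B)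
    (hB2 : (s : ℤ) - j - (ty F x y e + ty F x y f) ≤ B) :
    ∑ a ∈ e, ∑ b ∈ f, tau F P e f a b ≤ 3 * B := by
  refine sum_cells_le (P := P) (fun a b => tau F P e f a b) B h.threeP he hf hef ?_
  intro u v t a b c p
  have h1 : T3 F P e f u v t a b c ≤ B := by
    rcases cls_num h p with k | k | ⟨k, -⟩ <;> omega
  exact h1

/-- **a pair with a block inside `E`** -/
theorem pair_zero (h : SetUp F s j P x y) (he : e ∈ P) (hf : f ∈ P) (hef : e ≠ f)
    (h0 : ty F x y e = 0 ∨ ty F x y f = 0) {m : ℤ} (hm : m ≤ 3 * j)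
    (hm' : m ≤ s + (ty F x y e + ty F x y f)) :
    ∑ a ∈ e, ∑ b ∈ f, tau F P e f a b ≤ -3 * m := by
  have := pair_num h he hf hef hm hm' (D := max 0 ((s : ℤ) - j - (ty F x y e + ty F x y f) + m))
    (le_max_left _ _) (le_max_right _ _)
  rcases h0 with h0 | h0
  · rw [h0] at this
    simpa using this
  · rw [h0] at this
    simpa using this

end Helper31.Res
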